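import Pool.Agent.OMF.Stmts

set_option autoImplicit false

/-!
# Squad OMF (MP_7e2fab_co), row TYP: types of a run
-/

namespace Pool.Agent.OMF.H50

open Finset Pool.Agent.GTO Pool.Agent.OMF
open scoped Classical

theorem dt_of_ip {w u v x : V} (hw : w ≠ 0) (hu : ip w u = 0) (hv : ip w v = 0)
    (hx : ip w x = 0) : dt u v x = 0 := by
  have key : ∀ i, dt u v x * w i = 0 := by
    intro i
    have h : dt u v x * w i = ip w u * cr v x i + ip w v * cr x u i + ip w x * cr u v i := by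
      fin_cases i <;> simp [dt, ip, cr] <;> ring
    rw [h, hu, hv, hx]
    ring
  by_contra hne
  apply hw
  funext i
  rcases mul_eq_zero.1 (key i) with h | h
  · exact absurd h hne
  · exact h

theorem dt_comb {u v q x y : V} {s t s' t' : ℝ} (hx : x = s • u + t • v)
    (hy : y = s' • u + t' • v) (h : dt u v q = 0) : dt x y q = 0 := by
  have e : dt x y q = (s * t' - t * s') * dt u v q := by
    subst hx hy
    simp [dt]
    ring
  rw [e, h, mul_zero]

variable {ι : Type} [Fintype ι]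

theorem card_ge {P : ℕ → ι} {S : Finset ι} {M : ℕ}
    (hinj : ∀ i ≤ M + 1, ∀ j ≤ M + 1, i ≠ j → P i ≠ P j) (hS : ∀ i ≤ M + 1, P i ∈ S) :
    M + 2 ≤ S.card := by
  have h1 : ((range (M + 2)).image P).card = M + 2 := by
    rw [card_image_of_injOn, card_range]
    intro i hi j hj hij
    by_contra hne
    have hi' := mem_range.1 (mem_coe.1 hi)
    have hj' := mem_range.1 (mem_coe.1 hj)
    exact hinj i (by omega) j (by omega) hne hij
  rw [← h1]
  apply card_le_card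
  intro x hx
  obtain ⟨i, hi, rfl⟩ := mem_image.1 hx
  exact hS i (by have := mem_range.1 hi; omega)

theorem tri_mem {a : ι → V} {x y z : ι} (h : Tri a x y z) : z ∈ ln a x y := by
  rw [h.2.2.2]
  simp

theorem tri_dt {a : ι → V} {x y z : ι} (h : Tri a x y z) : dt (a x) (a y) (a z) = 0 := by
  have := tri_mem h
  unfold ln at this
  exact (mem_filter.1 this).2

theorem tri_swap (hbas : BasStmt) {a : ι → V} (hP : PI a) {x y z : ι} (h : Tri a x y z) :
    Tri a x z y := by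
  obtain ⟨h1, h2, h3, h4⟩ := h
  refine ⟨h3.symm, h2.symm, h1.symm, ?_⟩
  have hb := (hbas.2.2.2.2.2 ι a hP).1 x y x z h1 h3.symm (by rw [h4]; simp) (by rw [h4]; simp)
  rw [hb, h4]
  ext t
  simp only [mem_insert, mem_singleton]
  tauto

theorem dt_swap (u v w : V) (h : dt u v w = 0) : dt u w v = 0 := by
  have e : dt u w v = - dt u v w := by
    simp [dt]
    ring
  rw [e, h, neg_zero]

/-- The case of a run with one row on a conic and the other one on a line. -/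
theorem tyB (hbas : BasStmt) (hex : Ex1Stmt) (hpsc : PscStmt) {a : ι → V} (hP : PI a) {k M : ℕ}
    (hM : 2 ≤ M) (hk : k ≤ M + 2) {O g g' : ι} {P Q : ℕ → ι} {w : V} {e : Fin 6 → ℝ}
    (hw : w ≠ 0) (he : NoLineQ e) (hO : O ∈ Zq a e) (hg : g ∈ Zq a e) (hg' : g' ∈ Zq a e)
    (hgg : g ≠ g') (hOg : O ≠ g) (hOg' : O ≠ g')
    (hc : ∀ i ≤ M + 1, ip w (a (P i)) = 0 ∧ P i ∉ Zq a e ∧ Q i ∈ Zq a e)
    (ht0 : ∀ i ≤ M + 1, Tri a O (P i) (Q i)) (ht1 : ∀ i ≤ M, Tri a g (P i) (Q (i + 1)))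
    (ht2 : ∀ i ≤ M, Tri a g' (P (i + 1)) (Q i))
    (hPP : ∀ i ≤ M + 1, ∀ j ≤ M + 1, i ≠ j → P i ≠ P j)
    (hQQ : ∀ i ≤ M + 1, ∀ j ≤ M + 1, i ≠ j → Q i ≠ Q j)
    (hQ : ∀ i ≤ M + 1, Q i ≠ O ∧ Q i ≠ g ∧ Q i ≠ g')
    (hs1 : ∀ i ≤ M, SH a O g (Q (i + 1)) (P i)) (hs2 : ∀ i ≤ M, SH a O g' (Q i) (P (i + 1))) :
    TyB a k O (Q 0) (P 0) := by
  have hz : ∀ i, i ∈ Zq a e → quad e (a i) = 0 := by
    intro i hi
    unfold Zq at hi
    exact (mem_filter.1 hi).2
  refine ⟨e, he, hk.trans (card_ge hQQ fun i hi => (hc i hi).2.2), hO, (hc 0 (by omega)).2.2,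
    (hc 0 (by omega)).2.1, ?_⟩
  have h01 : P 0 ≠ P 1 := hPP 0 (by omega) 1 (by omega) (by omega)
  refine ⟨ln a (P 0) (P 1), ?_, ?_, ?_, g, g', hgg, ?_, ?_, ?_⟩
  · unfold lns
    exact mem_image.2 ⟨(P 0, P 1), by simp [h01], rfl⟩
  · refine hk.trans (card_ge hPP fun i hi => ?_)
    unfold ln
    refine mem_filter.2 ⟨mem_univ _, ?_⟩
    exact dt_of_ip hw (hc 0 (by omega)).1 (hc 1 (by omega)).1 (hc i hi).1
  · exact ((hbas.2.2.2.2.2 ι a hP).2.1 _ _ h01).1
  · refine hex ι a hP e he O g (Q 1) (P 0) (Q 2) (P 1) (Q 3) ?_ hO hg (hc 1 (by omega)).2.2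
      (hc 2 (by omega)).2.2 (hc 3 (by omega)).2.2 (hc 0 (by omega)).2.1 (hc 1 (by omega)).2.1
      (tri_swap hbas hP (ht1 0 (by omega))) (tri_swap hbas hP (ht1 1 (by omega)))
      (hs1 0 (by omega)) (hs1 1 (by omega))
    have q1 := hQ 1 (by omega)
    have q2 := hQ 2 (by omega)
    have q3 := hQ 3 (by omega)
    have q12 := hQQ 1 (by omega) 2 (by omega) (by omega)
    have q13 := hQQ 1 (by omega) 3 (by omega) (by omega)
    have q23 := hQQ 2 (by omega) 3 (by omega) (by omega)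
    simp only [List.nodup_cons, List.mem_cons, List.not_mem_nil, or_false, not_or,
      List.nodup_nil, and_true, not_false_eq_true]
    exact ⟨⟨hOg, q1.1.symm, q2.1.symm, q3.1.symm⟩, ⟨q1.2.1.symm, q2.2.1.symm, q3.2.1.symm⟩,
      ⟨q12, q13⟩, q23⟩
  · refine hex ι a hP e he O g' (Q 0) (P 1) (Q 1) (P 2) (Q 3) ?_ hO hg' (hc 0 (by omega)).2.2
      (hc 1 (by omega)).2.2 (hc 3 (by omega)).2.2 (hc 1 (by omega)).2.1 (hc 2 (by omega)).2.1
      (tri_swap hbas hP (ht2 0 (by omega))) (tri_swap hbas hP (ht2 1 (by omega)))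
      (hs2 0 (by omega)) (hs2 1 (by omega))
    have q1 := hQ 0 (by omega)
    have q2 := hQ 1 (by omega)
    have q3 := hQ 3 (by omega)
    have q12 := hQQ 0 (by omega) 1 (by omega) (by omega)
    have q13 := hQQ 0 (by omega) 3 (by omega) (by omega)
    have q23 := hQQ 1 (by omega) 3 (by omega) (by omega)
    simp only [List.nodup_cons, List.mem_cons, List.not_mem_nil, or_false, not_or,
      List.nodup_nil, and_true, not_false_eq_true]
    exact ⟨⟨hOg', q1.1.symm, q2.1.symm, q3.1.symm⟩, ⟨q1.2.2.symm, q2.2.2.symm, q3.2.2.symm⟩,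
      ⟨q12, q13⟩, q23⟩
  · have q0 := hQ 0 (by omega)
    have q1 := hQ 1 (by omega)
    have q01 := hQQ 0 (by omega) 1 (by omega) (by omega)
    have key := hpsc e (a O) (a g) (a g') (a (Q 0)) (a (Q 1)) (a (P 0)) (a (P 1)) he (hz _ hO)
      (hz _ hg) (hz _ hg') (hz _ (hc 0 (by omega)).2.2) (hz _ (hc 1 (by omega)).2.2)
      (hP _ _ hOg) (hP _ _ hOg') (hP _ _ q0.1.symm) (hP _ _ q1.1.symm) (hP _ _ hgg)
      (hP _ _ q0.2.1.symm) (hP _ _ q1.2.1.symm) (hP _ _ q0.2.2.symm) (hP _ _ q1.2.2.symm)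
      (hP _ _ q01)
      (dt_swap _ _ _ (tri_dt (ht0 0 (by omega)))) (dt_swap _ _ _ (tri_dt (ht1 0 (by omega))))
      (dt_swap _ _ _ (tri_dt (ht0 1 (by omega)))) (dt_swap _ _ _ (tri_dt (ht2 0 (by omega))))
    intro i hi j hj
    have hcr := hP _ _ h01
    obtain ⟨s, t, hst⟩ := (hbas.2.2.2.1 _ _ _ hcr).1 (mem_filter.1 hi).2
    obtain ⟨s', t', hst'⟩ := (hbas.2.2.2.1 _ _ _ hcr).1 (mem_filter.1 hj).2
    exact dt_comb hst hst' key

/-- TYP. -/
theorem typ (hbas : BasStmt) (hrn2 : Rn2Stmt) (hcub : CubStmt) (hlnq : LnqStmt) (hty1 : Ty1Stmt)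
    (hty2 : Ty2Stmt) (hex1 : Ex1Stmt) (hpsc : PscStmt) : TypStmt := by
  intro ι _ a hP N k x ℓ hN hk hcard hsee
  obtain ⟨Gm, G1, G2, A, B, ⟨hrun, hsh⟩, hℓ⟩ := hrn2 ι a hP N x ℓ (by omega) hcard hsee
  obtain ⟨M, rfl⟩ : ∃ M, N = M + 1 := ⟨N - 1, by omega⟩
  have hMM : M + 1 - 1 = M := by omega
  rw [hMM] at hrun hsh
  obtain ⟨r1, r2, r3, r4, r5, r6, r7, r8⟩ := id hrun
  refine ⟨A 0, B 0, hℓ, (r1 0 (by omega)).1, (r1 0 (by omega)).2.1, (r1 0 (by omega)).2.2.1, ?_⟩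
  have hAA : ∀ i ≤ M + 1, ∀ j ≤ M + 1, i ≠ j → A i ≠ A j := fun i hi j hj hij =>
    ((r5 i hi j hj).2 hij).1
  have hBB : ∀ i ≤ M + 1, ∀ j ≤ M + 1, i ≠ j → B i ≠ B j := fun i hi j hj hij =>
    ((r5 i hi j hj).2 hij).2
  obtain ⟨c, hc0, cO, cGm, cG1, cG2, cAB⟩ := hcub ι a hP M x Gm G1 G2 A B hrun (by omega)
  by_cases hNL : NoLine c
  · left
    refine ⟨c, hNL, ?_, mem_filter.2 ⟨mem_univ _, cO⟩,
      mem_filter.2 ⟨mem_univ _, (cAB 0 (by omega)).1⟩,
      mem_filter.2 ⟨mem_univ _, (cAB 0 (by omega)).2⟩⟩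
    have := card_ge (S := Zc a c) hAA fun i hi => mem_filter.2 ⟨mem_univ _, (cAB i hi).1⟩
    omega
  obtain ⟨w, e, hw, he0, hfac⟩ := hlnq.2.2.1 c hc0 hNL
  by_cases hNQ : NoLineQ e
  · have hor : ∀ i, cub c (a i) = 0 → ip w (a i) = 0 ∨ i ∈ Zq a e := by
      intro i hi
      rw [hfac] at hi
      rcases mul_eq_zero.1 hi with h | h
      · exact Or.inl h
      · exact Or.inr (mem_filter.2 ⟨mem_univ _, h⟩)
    have h6 := r6
    simp only [List.nodup_cons, List.mem_cons, List.not_mem_nil, or_false, not_or,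
      List.nodup_nil, and_true, not_false_eq_true] at h6
    obtain ⟨⟨n1, n2, n3⟩, ⟨n4, n5⟩, n6⟩ := h6
    rcases hty1 ι a hP M x Gm G1 G2 A B w e hrun (by omega) hw hNQ (by
        intro i hi
        simp only [List.mem_cons, List.not_mem_nil, or_false] at hi
        rcases hi with rfl | rfl | rfl | rfl
        · exact hor _ cO
        · exact hor _ cGm
        · exact hor _ cG1
        · exact hor _ cG2)
      (fun i hi => ⟨hor _ (cAB i hi).1, hor _ (cAB i hi).2⟩) with h | h | h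
    · right; left
      refine ⟨e, hNQ, ?_, h.1, (h.2 0 (by omega)).1, (h.2 0 (by omega)).2⟩
      have := card_ge (S := Zq a e) hAA fun i hi => (h.2 i hi).1
      omega
    · right; right; right; left
      obtain ⟨z1, z2, z3, z4⟩ := h
      exact tyB hbas hex1 hpsc hP (M := M) (by omega) (by omega) hw hNQ z1 z2 z3 (Ne.symm n4) n2 n1
        z4 r1 r2 r3 hAA hBB
        (fun i hi => ⟨(r7 i hi).2.2.2.1, (r7 i hi).2.2.2.2.2, (r7 i hi).2.2.2.2.1⟩)
        (fun i hi => (hsh i hi).2.1) (fun i hi => (hsh i hi).2.2.2)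
    · right; right; left
      obtain ⟨z1, z2, z3, z4⟩ := h
      exact tyB hbas hex1 hpsc hP (M := M) (by omega) (by omega) hw hNQ z1 z3 z2 n4 n1 n2
        z4 (fun i hi => tri_swap hbas hP (r1 i hi)) (fun i hi => tri_swap hbas hP (r3 i hi))
        (fun i hi => tri_swap hbas hP (r2 i hi)) hBB hAA
        (fun i hi => ⟨(r7 i hi).1, (r7 i hi).2.1, (r7 i hi).2.2.1⟩)
        (fun i hi => (hsh i hi).2.2.1) (fun i hi => (hsh i hi).1)
  · right; right; right; right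
    obtain ⟨w', m, hw', hm, hfac'⟩ := hlnq.2.2.2 e he0 hNQ
    have hor : ∀ i, cub c (a i) = 0 → ∃ j : Fin 3, ip ((![w, w', m] : Fin 3 → V) j) (a i) = 0 := by
      intro i hi
      rw [hfac, hfac'] at hi
      rcases mul_eq_zero.1 hi with h | h
      · exact ⟨0, h⟩
      · rcases mul_eq_zero.1 h with h | h
        · exact ⟨1, h⟩
        · exact ⟨2, h⟩
    have hne : ∀ j : Fin 3, (![w, w', m] : Fin 3 → V) j ≠ 0 := by
      intro j
      fin_cases j
      · exact hw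
      · exact hw'
      · exact hm
    obtain ⟨j, j', hj⟩ := hty2 ι a hP M x Gm G1 G2 A B ![w, w', m] hrun (by omega) hne (by
        intro i hi
        simp only [List.mem_cons, List.not_mem_nil, or_false] at hi
        rcases hi with rfl | rfl | rfl | rfl
        · exact hor _ cO
        · exact hor _ cGm
        · exact hor _ cG1
        · exact hor _ cG2)
      (fun i hi => ⟨hor _ (cAB i hi).1, hor _ (cAB i hi).2⟩)
    have main : ∀ (P : ℕ → ι) (w : V), w ≠ 0 → (∀ i ≤ M + 1, ∀ j ≤ M + 1, i ≠ j → P i ≠ P j) →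
        (∀ i ≤ M + 1, ip w (a (P i)) = 0) → P 0 ∈ UU a k := by
      intro P w hw hPP hc
      have h01 : P 0 ≠ P 1 := hPP 0 (by omega) 1 (by omega) (by omega)
      refine mem_filter.2 ⟨mem_univ _, ln a (P 0) (P 1), ?_, ?_, ?_⟩
      · unfold lns
        exact mem_image.2 ⟨(P 0, P 1), by simp [h01], rfl⟩
      · have := card_ge (S := ln a (P 0) (P 1)) hPP fun i hi => mem_filter.2 ⟨mem_univ _,
          dt_of_ip hw (hc 0 (by omega)) (hc 1 (by omega)) (hc i hi)⟩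
        omega
      · exact ((hbas.2.2.2.2.2 ι a hP).2.1 _ _ h01).1
    exact ⟨main A _ (hne j) hAA fun i hi => (hj i hi).1,
      main B _ (hne j') hBB fun i hi => (hj i hi).2⟩

end Pool.Agent.OMF.H50
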